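import Pool.Agent.Q101.LfMain
import Pool.Agent.Q101.LfAll

set_option autoImplicit false

/-!
# Euclidean spaces of dimension at least two are Lipschitz-free rigid

`LipFree M` (file `Pool.Agent.Q101.LfFree`) is the completion of the space of finitely supported
functions `x : M → ℝ` with `∑ x m = 0`, normed by `‖x‖ = sup |∑ x m * f m|` over the `1`-Lipschitz
functions `f`, and `mol p q = χ_p - χ_q`.
-/

namespace Pool.Agent.Results.MP_cf641d_an.EuclideanRigid

open Q101Lf

/-- `φ` is an `a`-dilation: `d(x, y) = a d(φ(x), φ(y))`. -/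
def IsDilation {M : Type} [MetricSpace M] (a : ℝ) (φ : M → M) : Prop :=
  ∀ x y, dist x y = a * dist (φ x) (φ y)

/-- The bounded operator `U` is `T_φ`: `U (χ_p - χ_q) = a (χ_{φ(p)} - χ_{φ(q)})`. -/
def IsInduced {M : Type} [MetricSpace M] (a : ℝ) (φ : M → M)
    (U : LipFree M →L[ℝ] LipFree M) : Prop :=
  ∀ p q, U (mol p q) = a • mol (φ p) (φ q)

/-- `M` is Lipschitz-free rigid: every surjective linear isometry of `LipFree M` is `± T_φ` for a
surjective dilation `φ`. -/
def LipschitzFreeRigid (M : Type) [MetricSpace M] : Prop :=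
  ∀ T : LipFree M →ₗᵢ[ℝ] LipFree M, Function.Surjective T →
    ∃ (ε a : ℝ) (φ : M → M) (U : LipFree M →L[ℝ] LipFree M), (ε = 1 ∨ ε = -1) ∧ 0 < a ∧
      Function.Surjective φ ∧ IsDilation a φ ∧ IsInduced a φ U ∧ ∀ z, T z = ε • U z

/-- **Euclidean space `ℝ^d` is Lipschitz-free rigid for every `d ≥ 2`.** -/
theorem result (d : ℕ) (hd : 2 ≤ d) : LipschitzFreeRigid (EuclideanSpace ℝ (Fin d)) := by
  intro T hT
  let T' : LipFree (EuclideanSpace ℝ (Fin d)) ≃ₗᵢ[ℝ] LipFree (EuclideanSpace ℝ (Fin d)) :=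
    LinearIsometryEquiv.ofSurjective T hT
  obtain ⟨c, φ, hc, h1, h2⟩ := main lemmas hd T'
  have hc' : 0 < |c| := abs_pos.2 hc
  obtain ⟨ε, hε, hεc⟩ : ∃ ε : ℝ, (ε = 1 ∨ ε = -1) ∧ c = ε * |c| := by
    rcases lt_or_gt_of_ne hc with h | h
    · exact ⟨-1, Or.inr rfl, by rw [abs_of_neg h]; ring⟩
    · exact ⟨1, Or.inl rfl, by rw [abs_of_pos h]; ring⟩
  have hε2 : ε * ε = 1 := by rcases hε with rfl | rfl <;> norm_num
  refine ⟨ε, 1 / |c|, φ, ε • T.toContinuousLinearMap, hε, by positivity, φ.surjective, ?_, ?_, ?_⟩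
  · intro x y
    rw [dist_eq_norm, dist_eq_norm, h1]
    field_simp
  · intro p q
    change ε • T (mol p q) = _
    have h3 : T (mol p q) = (1 / c) • mol (φ p) (φ q) := h2 p q
    rw [h3, smul_smul]
    congr 1
    rw [hεc, abs_mul, abs_abs]
    have h4 : |ε| = 1 := by rcases hε with rfl | rfl <;> norm_num
    have h5 : ε ≠ 0 := by rintro rfl; norm_num at h4
    rw [h4, one_mul]
    field_simp
  · intro z
    change T z = ε • ε • T z
    rw [smul_smul, hε2, one_smul]

end Pool.Agent.Results.MP_cf641d_an.EuclideanRigid
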